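import Pool.Agent.H59R3.Pf
import Pool.Agent.H59R3.OsCoef

set_option autoImplicit false

namespace Pool.Agent.Results.MP_d12cfa_co.PfaffianIdentity

open Finset Matrix Pool.Agent.H59R3

/-- The Pfaffian of a matrix `A` of order `2m`, by the usual formula
`1/(2^m m!) ∑_σ sgn(σ) ∏_{i<m} A_{σ(2i), σ(2i+1)}`
(`finProdFinEquiv (i, b)` is the index `2 i + b`, for `b = 0, 1`). -/
noncomputable def pfaffian (m : ℕ) (A : Matrix (Fin (m * 2)) (Fin (m * 2)) ℚ) : ℚ :=
  (∑ σ : Equiv.Perm (Fin (m * 2)), ((Equiv.Perm.sign σ : ℤ) : ℚ) *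
    ∏ i : Fin m, A (σ (finProdFinEquiv (i, 0))) (σ (finProdFinEquiv (i, 1)))) /
    (2 ^ m * m.factorial)

/-- The skew-symmetric array of the problem, indexed by `0 ≤ a, b ≤ 2n + 1`: the entry is `c_{ab}`
(the coefficient `osc a b` of `x^a y^b` in `(y - x) / ((1 - x y) (1 - x - y))`) whenever
`a, b ≤ 2n`, and the entries of the last column `b = 2n + 1` are `u a`. -/
noncomputable def bordered (n : ℕ) (u : ℕ → ℚ) :
    Matrix (Fin ((n + 1) * 2)) (Fin ((n + 1) * 2)) ℚ :=
  fun a b =>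
    if (a : ℕ) ≤ 2 * n then (if (b : ℕ) ≤ 2 * n then osc a b else u a)
    else (if (b : ℕ) ≤ 2 * n then -u b else 0)

/-- natural number version -/
noncomputable def bn (n : ℕ) (u : ℕ → ℚ) (a b : ℕ) : ℚ :=
  if a ≤ 2 * n then (if b ≤ 2 * n then osc a b else u a)
    else (if b ≤ 2 * n then -u b else 0)

/-- the matrix of the substitution `z ↦ 1 - z` -/
noncomputable def sn (n : ℕ) (a b : ℕ) : ℚ :=
  if a ≤ 2 * n then (if b ≤ 2 * n then (-1 : ℚ) ^ b * (a.choose b) else 0)
    else (if b ≤ 2 * n then 0 else 1)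

noncomputable def smat (n : ℕ) : Matrix (Fin ((n + 1) * 2)) (Fin ((n + 1) * 2)) ℚ :=
  fun a b => sn n a b

lemma sum_fin (n : ℕ) (f : ℕ → ℚ) :
    ∑ k : Fin ((n + 1) * 2), f k = ∑ k ∈ range (2 * n + 1), f k + f (2 * n + 1) := by
  rw [Fin.sum_univ_eq_sum_range, show (n + 1) * 2 = 2 * n + 1 + 1 by ring, Finset.sum_range_succ]

lemma smat_conj (n : ℕ) (u : ℕ → ℚ) :
    smat n * bordered n u * (smat n)ᵀ = -bordered n (fun a => -bT u a) := by
  ext i j
  have e : (smat n * bordered n u * (smat n)ᵀ) i j =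
      ∑ l : Fin ((n + 1) * 2), (∑ k : Fin ((n + 1) * 2), sn n i k * bn n u k l) * sn n j l := by
    simp only [Matrix.mul_apply, Matrix.transpose_apply]
    rfl
  have e2 : (∑ l : Fin ((n + 1) * 2), (∑ k : Fin ((n + 1) * 2), sn n i k * bn n u k l) *
      sn n j l) = (∑ l ∈ range (2 * n + 1), (∑ k ∈ range (2 * n + 1), sn n i k * bn n u k l +
        sn n i (2 * n + 1) * bn n u (2 * n + 1) l) * sn n j l) +
        (∑ k ∈ range (2 * n + 1), sn n i k * bn n u k (2 * n + 1) +
        sn n i (2 * n + 1) * bn n u (2 * n + 1) (2 * n + 1)) * sn n j (2 * n + 1) := by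
    rw [sum_fin n (fun l => (∑ k : Fin ((n + 1) * 2), sn n i k * bn n u k l) * sn n j l)]
    rw [sum_fin n (fun k => sn n i k * bn n u k (2 * n + 1))]
    congr 1
    refine Finset.sum_congr rfl fun l _ => ?_
    rw [sum_fin n (fun k => sn n i k * bn n u k l)]
  rw [e, e2]
  have hN : ¬ (2 * n + 1 ≤ 2 * n) := by omega
  have hi := i.2
  have hj := j.2
  have hr : ∀ k ∈ range (2 * n + 1), k ≤ 2 * n := fun k hk => by
    rw [Finset.mem_range] at hk; omega
  have hbnLL : bn n u (2 * n + 1) (2 * n + 1) = 0 := by simp [bn]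
  have hbnL : ∀ k ∈ range (2 * n + 1), bn n u k (2 * n + 1) = u k := fun k hk => by
    have := hr k hk
    simp [bn, this]
  have hbnL' : ∀ k ∈ range (2 * n + 1), bn n u (2 * n + 1) k = -u k := fun k hk => by
    have := hr k hk
    simp [bn, this]
  have hbnc : ∀ k ∈ range (2 * n + 1), ∀ l ∈ range (2 * n + 1), bn n u k l = osc k l :=
    fun k hk l hl => by
      have h1 := hr k hk
      have h2 := hr l hl
      simp [bn, h1, h2]
  have hs : ∀ a, a ≤ 2 * n → ∀ k ∈ range (2 * n + 1), sn n a k = (-1 : ℚ) ^ k * (a.choose k) :=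
    fun a ha k hk => by
      have := hr k hk
      simp [sn, ha, this]
  have hsL : ∀ a, a ≤ 2 * n → sn n a (2 * n + 1) = 0 := fun a ha => by simp [sn, ha]
  have hs' : ∀ a, ¬ a ≤ 2 * n → ∀ k ∈ range (2 * n + 1), sn n a k = 0 := fun a ha k hk => by
    have := hr k hk
    simp [sn, ha, this]
  have hsL' : ∀ a, ¬ a ≤ 2 * n → sn n a (2 * n + 1) = 1 := fun a ha => by simp [sn, ha]
  have hT : ∀ a, a ≤ 2 * n → ∑ k ∈ range (2 * n + 1), ((-1 : ℚ) ^ k * (a.choose k)) * u k =
      bT u a := fun a ha => by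
    rw [bT_ext (N := 2 * n + 1) (by omega)]
  rw [hbnLL]
  have hneg : (-bordered n (fun a => -bT u a)) i j = -bn n (fun a => -bT u a) i j := rfl
  rw [hneg]
  by_cases h1 : (i : ℕ) ≤ 2 * n
  · by_cases h2 : (j : ℕ) ≤ 2 * n
    · -- both small
      rw [hsL _ h1, hsL _ h2]
      simp only [zero_mul, add_zero, mul_zero]
      have e3 : bn n (fun a => -bT u a) i j = osc i j := by simp [bn, h1, h2]
      rw [e3]
      rw [← osd_sum (i : ℕ) (j : ℕ) (2 * n + 1) (by omega) (by omega), Finset.sum_comm]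
      refine Finset.sum_congr rfl fun l hl => ?_
      rw [Finset.sum_mul]
      refine Finset.sum_congr rfl fun k hk => ?_
      rw [hs _ h1 k hk, hs _ h2 l hl, hbnc k hk l hl]
    · rw [hsL _ h1, hsL' _ h2]
      simp only [zero_mul, add_zero, mul_one]
      have e3 : bn n (fun a => -bT u a) i j = -bT u i := by simp [bn, h1, h2]
      rw [e3, neg_neg]
      have e4 : ∑ l ∈ range (2 * n + 1), (∑ k ∈ range (2 * n + 1), sn n i k * bn n u k l) *
          sn n j l = 0 := by
        refine Finset.sum_eq_zero fun l hl => ?_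
        rw [hs' _ h2 l hl, mul_zero]
      rw [e4, zero_add, ← hT _ h1]
      refine Finset.sum_congr rfl fun k hk => ?_
      rw [hs _ h1 k hk, hbnL k hk]
  · have e5 : ∀ l, ∑ k ∈ range (2 * n + 1), sn n i k * bn n u k l = 0 := fun l =>
      Finset.sum_eq_zero fun k hk => by rw [hs' _ h1 k hk, zero_mul]
    simp only [e5, hsL' _ h1, zero_add, one_mul]
    by_cases h2 : (j : ℕ) ≤ 2 * n
    · have e3 : bn n (fun a => -bT u a) i j = bT u j := by simp [bn, h1, h2]
      rw [e3, hsL _ h2, mul_zero, add_zero, ← hT _ h2, ← Finset.sum_neg_distrib]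
      refine Finset.sum_congr rfl fun k hk => ?_
      rw [hs _ h2 k hk, hbnL' k hk]
      ring
    · have e3 : bn n (fun a => -bT u a) i j = 0 := by simp [bn, h1, h2]
      rw [e3, zero_mul, add_zero, neg_zero]
      refine Finset.sum_eq_zero fun k hk => ?_
      rw [hs' _ h2 k hk, mul_zero]

lemma prod_sign (n : ℕ) : ∏ k ∈ range (2 * n + 1), sn n k k = (-1) ^ n := by
  have e : ∏ k ∈ range (2 * n + 1), sn n k k = ∏ k ∈ range (2 * n + 1), (-1 : ℚ) ^ k := by
    refine Finset.prod_congr rfl fun k hk => ?_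
    rw [Finset.mem_range] at hk
    have : k ≤ 2 * n := by omega
    simp [sn, this]
  rw [e]
  clear e
  induction n with
  | zero => simp
  | succ n ih =>
    rw [show 2 * (n + 1) + 1 = 2 * n + 1 + 1 + 1 by ring, Finset.prod_range_succ,
      Finset.prod_range_succ, ih]
    have h1 : (-1 : ℚ) ^ (2 * n + 1) = -1 := Odd.neg_one_pow ⟨n, rfl⟩
    have h2 : (-1 : ℚ) ^ (2 * n + 1 + 1) = 1 := Even.neg_one_pow ⟨n + 1, by ring⟩
    rw [h1, h2]; ring

lemma smat_det (n : ℕ) : (smat n).det = (-1) ^ n := by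
  have htri : (smat n).BlockTriangular OrderDual.toDual := by
    intro i j hij
    have hij' : (i : ℕ) < (j : ℕ) := by
      have : i < j := hij
      exact this
    unfold smat sn
    have hj := j.2
    by_cases h1 : (i : ℕ) ≤ 2 * n
    · rw [if_pos h1]
      by_cases h2 : (j : ℕ) ≤ 2 * n
      · rw [if_pos h2, Nat.choose_eq_zero_of_lt hij']; simp
      · rw [if_neg h2]
    · exfalso; omega
  rw [Matrix.det_of_isLowerTriangular _ htri]
  have e : ∏ i : Fin ((n + 1) * 2), smat n i i = ∏ k ∈ range ((n + 1) * 2), sn n k k := by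
    rw [← Fin.prod_univ_eq_prod_range (fun k => sn n k k)]
    rfl
  rw [e, show (n + 1) * 2 = 2 * n + 1 + 1 by ring, Finset.prod_range_succ, prod_sign]
  simp [sn]

/-- the last index -/
def lastIdx (n : ℕ) : Fin ((n + 1) * 2) := ⟨2 * n + 1, by omega⟩

lemma ne_last {n : ℕ} {i : Fin ((n + 1) * 2)} (h : i ≠ lastIdx n) : (i : ℕ) ≤ 2 * n := by
  by_contra hc
  apply h
  ext
  have := i.2
  simp only [lastIdx]
  omega

/-- The signed sum is linear in the last column. -/
lemma pfSum_linear (n : ℕ) (s t : ℚ) (u v : ℕ → ℚ) :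
    pfSum (n + 1) (bordered n (fun a => s * u a + t * v a)) =
      s * pfSum (n + 1) (bordered n u) + t * pfSum (n + 1) (bordered n v) := by
  unfold pfSum
  rw [Finset.mul_sum, Finset.mul_sum, ← Finset.sum_add_distrib]
  refine Finset.sum_congr rfl fun σ _ => ?_
  obtain ⟨⟨i0, b0⟩, hib⟩ :=
    (finProdFinEquiv (m := n + 1) (n := 2)).surjective (σ.symm (lastIdx n))
  have hother : ∀ i : Fin (n + 1), ∀ b : Fin 2, (i, b) ≠ (i0, b0) →
      σ (finProdFinEquiv (i, b)) ≠ lastIdx n := by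
    intro i b hne h
    apply hne
    apply (finProdFinEquiv (m := n + 1) (n := 2)).injective
    rw [hib, ← h, Equiv.symm_apply_apply]
  have hlast : σ (finProdFinEquiv (i0, b0)) = lastIdx n := by
    rw [hib, Equiv.apply_symm_apply]
  have hprod : ∀ w : ℕ → ℚ, ∏ i : Fin (n + 1),
      bordered n w (σ (finProdFinEquiv (i, 0))) (σ (finProdFinEquiv (i, 1))) =
      bordered n w (σ (finProdFinEquiv (i0, 0))) (σ (finProdFinEquiv (i0, 1))) *
        ∏ i ∈ univ.erase i0,
          osc (σ (finProdFinEquiv (i, 0)) : Fin ((n + 1) * 2))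
            (σ (finProdFinEquiv (i, 1)) : Fin ((n + 1) * 2)) := by
    intro w
    rw [← Finset.mul_prod_erase univ _ (Finset.mem_univ i0)]
    congr 1
    refine Finset.prod_congr rfl fun i hi => ?_
    have hi0 : i ≠ i0 := Finset.ne_of_mem_erase hi
    have h1 := ne_last (hother i 0 (by simp [hi0]))
    have h2 := ne_last (hother i 1 (by simp [hi0]))
    unfold bordered
    rw [if_pos h1, if_pos h2]
  rw [hprod, hprod, hprod]
  have hlin : bordered n (fun a => s * u a + t * v a) (σ (finProdFinEquiv (i0, 0)))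
      (σ (finProdFinEquiv (i0, 1))) =
      s * bordered n u (σ (finProdFinEquiv (i0, 0))) (σ (finProdFinEquiv (i0, 1))) +
      t * bordered n v (σ (finProdFinEquiv (i0, 0))) (σ (finProdFinEquiv (i0, 1))) := by
    have hLn : ¬ ((lastIdx n : Fin ((n + 1) * 2)) : ℕ) ≤ 2 * n := by simp [lastIdx]
    fin_cases b0
    · have h0 : σ (finProdFinEquiv (i0, 0)) = lastIdx n := hlast
      have h1 := ne_last (hother i0 1 (by simp))
      rw [h0]
      unfold bordered
      rw [if_neg hLn, if_neg hLn, if_neg hLn, if_pos h1, if_pos h1, if_pos h1]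
      ring
    · have h0 : σ (finProdFinEquiv (i0, 1)) = lastIdx n := hlast
      have h1 := ne_last (hother i0 0 (by simp))
      rw [h0]
      unfold bordered
      rw [if_pos h1, if_pos h1, if_pos h1, if_neg hLn, if_neg hLn, if_neg hLn]
  rw [hlin]
  ring

lemma pfSum_neg (m : ℕ) (A : Matrix (Fin (m * 2)) (Fin (m * 2)) ℚ) :
    pfSum m (-A) = (-1) ^ m * pfSum m A := by
  unfold pfSum
  rw [Finset.mul_sum]
  refine Finset.sum_congr rfl fun σ _ => ?_
  have : ∏ i : Fin m, (-A) (σ (finProdFinEquiv (i, 0))) (σ (finProdFinEquiv (i, 1))) =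
      (-1) ^ m * ∏ i : Fin m, A (σ (finProdFinEquiv (i, 0))) (σ (finProdFinEquiv (i, 1))) := by
    simp only [Matrix.neg_apply]
    rw [Finset.prod_neg, Finset.card_univ, Fintype.card_fin]
  rw [this]; ring

/-- The Pfaffian with last column `u` equals the Pfaffian with last column
`∑_i (-1)^i C(a, i) u i`. -/
theorem pfSum_bT (n : ℕ) (u : ℕ → ℚ) :
    pfSum (n + 1) (bordered n (bT u)) = pfSum (n + 1) (bordered n u) := by
  have h := pfSum_congr (n + 1) (smat n) (bordered n u)
  rw [smat_conj, smat_det, pfSum_neg] at h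
  have h2 := pfSum_linear n (-1) 0 (bT u) (fun _ => 0)
  have e : (fun a => (-1 : ℚ) * bT u a + 0 * (fun _ => 0) a) = fun a => -bT u a := by
    ext a; ring
  rw [e] at h2
  rw [h2] at h
  have h3 : ((-1 : ℚ)) ^ n * pfSum (n + 1) (bordered n (bT u)) =
      (-1) ^ n * pfSum (n + 1) (bordered n u) := by
    rw [← h]; ring
  have h4 : ((-1 : ℚ)) ^ n ≠ 0 := pow_ne_zero _ (by norm_num)
  exact mul_left_cancel₀ h4 h3

lemma bT_pow (z : ℚ) (a : ℕ) : bT (fun i => z ^ i) a = (1 - z) ^ a := by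
  have h := add_pow (-z) 1 a
  rw [show (-z + 1) = 1 - z by ring] at h
  rw [h]
  unfold bT
  refine Finset.sum_congr rfl fun i _ => ?_
  rw [neg_pow]
  simp only [one_pow, mul_one]
  ring

lemma pfaffian_eq (m : ℕ) (A : Matrix (Fin (m * 2)) (Fin (m * 2)) ℚ) :
    pfaffian m A = pfSum m A / (2 ^ m * m.factorial) := rfl

/-- Sanity check: the Pfaffian of the skew-symmetric matrix of order `2` with upper right entry
`x` is `x`. -/
theorem pfaffian_two (x : ℚ) : pfaffian 1 !![0, x; -x, 0] = x := by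
  have h : (Finset.univ : Finset (Equiv.Perm (Fin (1 * 2)))) = {1, Equiv.swap 0 1} := by decide
  have h0 : (finProdFinEquiv ((0 : Fin 1), (0 : Fin 2)) : Fin (1 * 2)) = 0 := by decide
  have h1 : (finProdFinEquiv ((0 : Fin 1), (1 : Fin 2)) : Fin (1 * 2)) = 1 := by decide
  have hne : (1 : Equiv.Perm (Fin (1 * 2))) ≠ Equiv.swap 0 1 := by decide
  have hs : Equiv.Perm.sign (Equiv.swap (0 : Fin (1 * 2)) 1) = -1 := by decide
  unfold pfaffian
  rw [h, Finset.sum_pair hne]
  simp only [Finset.univ_unique, Fin.default_eq_zero, Finset.prod_singleton, h0, h1, hs,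
    Equiv.Perm.sign_one, Equiv.Perm.coe_one, id, Equiv.swap_apply_left, Equiv.swap_apply_right]
  simp

/-- Sanity check: some entries of the array `c_{ab}`. -/
theorem osc_values : osc 0 1 = 1 ∧ osc 0 2 = 1 ∧ osc 1 2 = 2 ∧ osc 1 3 = 3 := by
  refine ⟨osc_01, osc_0_succ 1, ?_, ?_⟩
  · have := osc_1 0; norm_num at this; exact this
  · have := osc_1 1; norm_num at this; exact this

/-- **The Pfaffian identity to which Q1 is equivalent**, for every `n`: the Pfaffian of the array
with last column `(-1)^a` equals the Pfaffian of the array with last column `((-1)^a + 2^a)/2`.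
More generally the Pfaffian with last column `z^a` is invariant under `z ↦ 1 - z`. -/
theorem result (n : ℕ) :
    pfaffian (n + 1) (bordered n (fun a => (-1) ^ a)) =
      pfaffian (n + 1) (bordered n (fun a => ((-1) ^ a + 2 ^ a) / 2)) ∧
    ∀ z : ℚ, pfaffian (n + 1) (bordered n (fun a => z ^ a)) =
      pfaffian (n + 1) (bordered n (fun a => (1 - z) ^ a)) := by
  have hz : ∀ z : ℚ, pfSum (n + 1) (bordered n (fun a => z ^ a)) =
      pfSum (n + 1) (bordered n (fun a => (1 - z) ^ a)) := by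
    intro z
    rw [← pfSum_bT n (fun a => z ^ a)]
    congr 2
    ext a
    exact bT_pow z a
  refine ⟨?_, fun z => by rw [pfaffian_eq, pfaffian_eq, hz]⟩
  rw [pfaffian_eq, pfaffian_eq]
  congr 1
  have h1 := hz (-1)
  have e1 : (fun a : ℕ => (1 - (-1 : ℚ)) ^ a) = fun a => 2 ^ a := by
    ext a; norm_num
  rw [e1] at h1
  have h2 := pfSum_linear n (1 / 2) (1 / 2) (fun a => (-1) ^ a) (fun a => 2 ^ a)
  have e2 : (fun a : ℕ => (1 / 2 : ℚ) * (-1) ^ a + 1 / 2 * 2 ^ a) =
      fun a => ((-1) ^ a + 2 ^ a) / 2 := by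
    ext a; ring
  rw [e2, ← h1] at h2
  rw [h2]
  ring

end Pool.Agent.Results.MP_d12cfa_co.PfaffianIdentity
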